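import Mathlib
import Pool.Agent.H22.Cyc64

set_option autoImplicit false

/-- A finite indecomposable cycle set in which some left multiplication has a cycle of length
`k ≥ 2` coprime to the size of the set. -/
theorem Pool.Agent.Results.MP_6d14ae_al.Counterexample.result :
    ∃ (X : Type) (_ : Finite X) (op : X → X → X),
      (∀ x, Function.Bijective (op x)) ∧
      (∀ x y z, op (op x y) (op x z) = op (op y x) (op y z)) ∧
      (¬ ∃ Y Z : Set X, Y.Nonempty ∧ Z.Nonempty ∧ Disjoint Y Z ∧ Y ∪ Z = Set.univ ∧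
        (∀ y ∈ Y, ∀ z ∈ Z, op y z ∈ Z) ∧ ∀ z ∈ Z, ∀ y ∈ Y, op z y ∈ Y) ∧
      ∃ x y : X, 2 ≤ Function.minimalPeriod (op x) y ∧
        Nat.Coprime (Function.minimalPeriod (op x) y) (Nat.card X) := by
  refine ⟨Pool.Agent.H22.Cyc64.X, inferInstance, Pool.Agent.H22.Cyc64.op,
    Pool.Agent.H22.Cyc64.op_bij, Pool.Agent.H22.Cyc64.op_law, Pool.Agent.H22.Cyc64.indec,
    (0, 0, 0), (0, 0, 2), ?_⟩
  rw [Pool.Agent.H22.Cyc64.per]
  simp only [Nat.card_prod, Nat.card_fin]
  decide
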